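import Pool.Agent.Helper46.NU.Names

/-!
# MP_1fe1ca_lc: names of reals
-/

open MeasureTheory Filter Topology Set
open Pool.Agent.Helper97.Ku

noncomputable section

namespace NU.PkREA

section

variable {L : Type} [CompleteBooleanAlgebra L]

theorem bo_inf_le {P : Prop} {a b : L} (h : P → a ≤ b) : bo P ⊓ a ≤ b := by
  by_cases hP : P
  · rw [bo_true hP, top_inf_eq]; exact h hP
  · rw [bo_false hP, bot_inf_eq]; exact bot_le

/-- Membership of a natural number in an explicit name. -/
theorem mem_nat (h3 : ∀ m n : ℕ, (nn m : BSet L).eq (nn n) = bo (m = n)) (B : ℕ → L) (n : ℕ) :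
    (nn n : BSet L).mem (BSet.mk ℕ nn B) = B n := by
  rw [BSet.mem_mk]
  apply le_antisymm
  · refine iSup_le fun m => ?_
    rw [h3, inf_comm]
    refine bo_inf_le fun h => ?_
    rw [h]
  · refine le_trans ?_ (le_iSup _ n)
    rw [BSet.eq_refl, inf_top_eq]

theorem nat_om (h2 : ∀ x : BSet L, x.mem omN = ⨆ n : ℕ, x.eq (nn n)) (n : ℕ) :
    (nn n : BSet L).mem omN = ⊤ := by
  rw [h2, eq_top_iff]
  refine le_trans ?_ (le_iSup _ n)
  rw [BSet.eq_refl]

theorem sub_om (h2 : ∀ x : BSet L, x.mem omN = ⨆ n : ℕ, x.eq (nn n)) (B : ℕ → L) :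
    subV (BSet.mk ℕ nn B : BSet L) omN = ⊤ := by
  unfold subV
  rw [BSet.iInf_mem _ _ (BSet.Ext.mem_left omN)]
  rw [eq_top_iff]
  refine le_iInf fun n => ?_
  rw [le_himp_iff, top_inf_eq]
  change B n ≤ (nn n : BSet L).mem omN
  rw [nat_om h2]
  exact le_top

theorem ext_iff {φ ψ : BSet L → L} (h : BSet.Ext φ) (k : BSet.Ext ψ) :
    BSet.Ext (fun x => iffV (φ x) (ψ x)) := BSet.Ext.inf (BSet.Ext.himp h k) (BSet.Ext.himp k h)

/-- Bounded quantification over a natural number. -/
theorem all_nat (h1 : ∀ (n : ℕ) (x : BSet L), x.mem (nn n) = ⨆ i : Fin n, x.eq (nn i.1))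
    (n : ℕ) (φ : BSet L → L) (h : BSet.Ext φ) :
    (⨅ y : BSet L, (y.mem (nn n) ⇨ φ y)) = ⨅ i : Fin n, φ (nn i.1) := by
  apply le_antisymm
  · refine le_iInf fun i => ?_
    refine le_trans (iInf_le _ (nn i.1)) ?_
    have : (nn i.1 : BSet L).mem (nn n) = ⊤ := by
      rw [h1, eq_top_iff]
      refine le_trans ?_ (le_iSup _ i)
      rw [BSet.eq_refl]
    rw [this, top_himp]
  · refine le_iInf fun y => ?_
    rw [le_himp_iff, h1, inf_iSup_eq]
    refine iSup_le fun i => ?_
    refine le_trans (inf_le_inf_right _ (iInf_le _ i)) ?_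
    rw [inf_comm, BSet.eq_comm']
    exact h (nn i.1) y

end

variable {S : Sys} {L : Type} [CompleteBooleanAlgebra L] {e : Set (Pt S) → L}

theorem ms {w : Pt S → ℕ → Bool} (hw : Measurable w) (n : ℕ) : MeasurableSet {z | w z n = true} :=
  ((measurable_pi_apply n).comp hw) (measurableSet_singleton true)

theorem rea (ehom : G_EHOM) (nat : G_NAT) (fn1 : G_FN1) : G_REA := by
  intro S L _ e he
  obtain ⟨eu, ee, _, ec, e2, ei, _⟩ := ehom S L e he
  obtain ⟨n1, n2, n3, _⟩ := nat L
  obtain ⟨f1, _, _, _⟩ := fn1 L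
  have himp : ∀ A B : Set (Pt S), MeasurableSet A → MeasurableSet B → (e A ⇨ e B) = e (Aᶜ ∪ B) := by
    intro A B hA hB
    rw [(e2 _ _ hA.compl hB).2, ec A hA, himp_eq, sup_comm]
  have mem : ∀ w : Pt S → ℕ → Bool, ∀ n : ℕ, (nn n).mem (rnN e w) = e {z | w z n = true} :=
    fun w n => mem_nat n3 _ n
  refine ⟨fun w _ => ⟨mem w, sub_om n2 _⟩, ?_, ?_, ?_⟩
  · intro w w' hw hw'
    have E : (rnN e w).eq (rnN e w') =
        (⨅ n : ℕ, (e {z | w z n = true} ⇨ e {z | w' z n = true})) ⊓
        (⨅ n : ℕ, (e {z | w' z n = true} ⇨ e {z | w z n = true})) := by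
      unfold rnN
      rw [BSet.eq_mk']
      simp only [mem_nat n3]
    rw [E]
    simp only [himp _ _ (ms hw _) (ms hw' _), himp _ _ (ms hw' _) (ms hw _)]
    rw [← (ei ℕ _ fun n => (ms hw n).compl.union (ms hw' n)).2,
      ← (ei ℕ _ fun n => (ms hw' n).compl.union (ms hw n)).2,
      ← (e2 _ _ (MeasurableSet.iInter fun n => (ms hw n).compl.union (ms hw' n))
        (MeasurableSet.iInter fun n => (ms hw' n).compl.union (ms hw n))).1]
    congr 1
    ext z
    simp only [mem_inter_iff, mem_iInter, mem_union, mem_compl_iff, mem_ofPred_eq]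
    constructor
    · rintro ⟨a, b⟩
      funext n
      have := a n
      have := b n
      cases h1 : w z n <;> cases h2 : w' z n <;> simp_all
    · intro h
      rw [h]
      exact ⟨fun n => (em _).symm, fun n => (em _).symm⟩
  · intro x
    choose K hK hKe using fun n : ℕ => he.surj ((nn n).mem x)
    classical
    refine ⟨fun z n => decide (z ∈ K n), ?_, ?_⟩
    · refine measurable_pi_lambda _ fun n => ?_
      refine measurable_to_bool ?_
      have : (fun z => decide (z ∈ K n)) ⁻¹' {true} = K n := by ext z; simp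
      rw [this]
      exact hK n
    · have E : ∀ n : ℕ, e {z | decide (z ∈ K n) = true} = (nn n).mem x := by
        intro n
        rw [← hKe n]
        congr 1
        ext z
        simp
      refine le_trans ?_ (BSet.ext_le _ _)
      refine le_iInf fun y => le_inf ?_ ?_
      · rw [le_himp_iff]
        have h1 : subV x omN ⊓ y.mem x ≤ y.mem omN ⊓ y.mem x := by
          refine le_inf ?_ inf_le_right
          rw [← le_himp_iff]
          exact iInf_le _ y
        refine le_trans h1 ?_
        rw [n2, iSup_inf_eq]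
        refine iSup_le fun n => ?_
        unfold rnN
        rw [BSet.mem_mk]
        refine le_trans ?_ (le_iSup _ n)
        rw [E n]
        refine le_inf ?_ inf_le_left
        exact BSet.mem_congr_left y (nn n) x
      · rw [le_himp_iff]
        refine le_trans inf_le_right ?_
        unfold rnN
        rw [BSet.mem_mk]
        refine iSup_le fun n => ?_
        rw [E n, inf_comm, BSet.eq_comm']
        exact BSet.mem_congr_left (nn n) y x
  · intro w hw t n
    have E : agbV (nn n) (fsN t) (rnN e w) =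
        ⨅ i : Fin n, iffV (bo (i.1 ∈ t)) (e {z | w z i.1 = true}) := by
      unfold agbV
      rw [all_nat n1 n (fun m => iffV (m.mem (fsN t)) (m.mem (rnN e w)))
        (ext_iff (BSet.Ext.mem_left _) (BSet.Ext.mem_left _))]
      refine iInf_congr fun i => ?_
      simp only [f1, mem]
    have E2 : ∀ i : Fin n, iffV (bo (i.1 ∈ t)) (e {z | w z i.1 = true}) =
        e {z | i.1 ∈ t ↔ w z i.1 = true} := by
      intro i
      unfold iffV
      by_cases h : i.1 ∈ t
      · rw [bo_true h, top_himp, himp_top, inf_top_eq]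
        congr 1
        ext z
        simp [h]
      · rw [bo_false h, bot_himp, himp_bot, top_inf_eq, ← ec _ (ms hw _)]
        congr 1
        ext z
        simp [h]
    have m2 : ∀ i : Fin n, MeasurableSet {z : Pt S | i.1 ∈ t ↔ w z i.1 = true} := by
      intro i
      by_cases h : i.1 ∈ t
      · have : {z : Pt S | i.1 ∈ t ↔ w z i.1 = true} = {z | w z i.1 = true} := by ext z; simp [h]
        rw [this]
        exact ms hw i.1
      · have : {z : Pt S | i.1 ∈ t ↔ w z i.1 = true} = {z | w z i.1 = true}ᶜ := by ext z; simp [h]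
        rw [this]
        exact (ms hw i.1).compl
    rw [E, iInf_congr E2, ← (ei (Fin n) _ m2).2]
    congr 1
    ext z
    simp only [mem_iInter, mem_ofPred_eq]
    exact ⟨fun h m hm => h ⟨m, hm⟩, fun h i => h i.1 i.2⟩

end NU.PkREA
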