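import Pool.Agent.Helper46.NU.Goals1

/-! Packet BM of MP_1fe1ca_lc: the probabilities are Baire measurable functions of `φ`. -/

open MeasureTheory Filter Topology Set
open scoped ENNReal

noncomputable section

namespace NU.PkBM

/-- `A` depends on finitely many bits. -/
def FinBits (S : Sys) (A : Set (Pt S)) : Prop :=
  ∃ G : Finset (S.C × ℕ), ∀ z z' : Pt S, (∀ p ∈ G, z p.1 p.2 = z' p.1 p.2) → (z ∈ A ↔ z' ∈ A)

theorem finBits_meas (S : Sys) {A : Set (Pt S)} (h : FinBits S A) : MeasurableSet A := by
  classical
  obtain ⟨G, hG⟩ := h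
  let g : Pt S → (G → Bool) := fun z p => z p.1.1 p.1.2
  have hg : Measurable g := by
    refine measurable_pi_lambda _ fun p => ?_
    exact (measurable_pi_apply p.1.2).comp (measurable_pi_apply p.1.1)
  have h1 : A = g ⁻¹' (g '' A) := by
    ext z
    constructor
    · intro hz
      exact ⟨z, hz, rfl⟩
    · rintro ⟨z', hz', he⟩
      refine (hG z' z fun p hp => ?_).1 hz'
      exact congrFun he ⟨p, hp⟩
  rw [h1]
  exact hg (Set.toFinite _).measurableSet

theorem gen_eq (S : Sys) : (inferInstance : MeasurableSpace (Pt S)) =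
    MeasurableSpace.generateFrom {A | FinBits S A} := by
  refine le_antisymm ?_ (MeasurableSpace.generateFrom_le fun A hA => finBits_meas S hA)
  have h1 : ∀ (c : S.C) (n : ℕ), @Measurable (Pt S) Bool
      (MeasurableSpace.generateFrom {A | FinBits S A}) _ (fun z => z c n) := by
    intro c n s _
    refine MeasurableSpace.measurableSet_generateFrom ?_
    refine ⟨{(c, n)}, fun z z' h => ?_⟩
    have h2 := h (c, n) (Finset.mem_singleton_self _)
    simp only at h2
    simp only [Set.mem_preimage, h2]
  have h2 : @Measurable (Pt S) (Pt S) (MeasurableSpace.generateFrom {A | FinBits S A})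
      inferInstance (fun z => z) := by
    refine @measurable_pi_lambda _ _ _ (MeasurableSpace.generateFrom {A | FinBits S A}) _ _
      fun c => ?_
    exact @measurable_pi_lambda _ _ _ (MeasurableSpace.generateFrom {A | FinBits S A}) _ _
      fun n => h1 c n
  intro s hs
  exact h2 hs

theorem pi_sys (S : Sys) : IsPiSystem {A | FinBits S A} := by
  classical
  rintro A ⟨G, hG⟩ B ⟨H, hH⟩ _
  refine ⟨G ∪ H, fun z z' h => ?_⟩
  rw [Set.mem_inter_iff, Set.mem_inter_iff, hG z z' fun p hp => h p (Finset.mem_union_left _ hp),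
    hH z z' fun p hp => h p (Finset.mem_union_right _ hp)]

theorem agr_open {S : Sys} (F : Finset (S.C × ℕ)) (φ₀ : Ph S) : IsOpen {φ | Agr F φ₀ φ} := by
  have h1 : {φ : Ph S | Agr F φ₀ φ} = ⋂ p ∈ F, (fun φ : Ph S => φ p) ⁻¹' {φ₀ p} := by
    ext φ
    simp [Agr]
  rw [h1]
  exact isOpen_biInter_finset fun p _ => (isOpen_discrete _).preimage (continuous_apply p)

/-- packet `BM` -/
theorem bm (mz : G_MZ) (lc : G_LC) : G_BM := by
  classical
  intro S K hK r
  let _ : MeasurableSpace (Ph S) := borel _
  have : BorelSpace (Ph S) := ⟨rfl⟩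
  have hpre : ∀ (φ : Ph S) (A : Set (Pt S)), MeasurableSet A →
      MeasurableSet {ω | zz S φ ω ∈ A} := fun φ A hA => mz S φ hA
  have key : Measurable fun φ : Ph S => pr S φ K := by
    induction K, hK using MeasurableSpace.induction_on_inter (gen_eq S) (pi_sys S) with
    | empty =>
      have h1 : (fun φ : Ph S => pr S φ ∅) = fun _ => 0 := by
        funext φ
        simp [pr]
      rw [h1]
      exact measurable_const
    | basic A hA =>
      obtain ⟨G, hG⟩ := hA
      have h1 : IsLocallyConstant fun φ : Ph S => pr S φ A := by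
        rw [IsLocallyConstant.iff_exists_open]
        intro φ₀
        choose Fp hFp using fun p : S.C × ℕ => lc S φ₀ p.1 p.2
        refine ⟨{φ | Agr (G.biUnion Fp) φ₀ φ}, agr_open _ _, fun _ _ => rfl, fun φ hφ => ?_⟩
        unfold pr
        congr 1
        ext ω
        refine hG _ _ fun p hp => ?_
        refine hFp p φ (fun q hq => ?_) ω
        exact hφ q (Finset.mem_biUnion.2 ⟨p, hp, hq⟩)
      exact h1.continuous.measurable
    | compl A hA ih =>
      have h1 : (fun φ : Ph S => pr S φ Aᶜ) = fun φ => 1 - pr S φ A := by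
        funext φ
        unfold pr
        exact prob_compl_eq_one_sub (hpre φ A hA)
      rw [h1]
      exact measurable_const.sub ih
    | iUnion f hd hf ih =>
      have h1 : (fun φ : Ph S => pr S φ (⋃ i, f i)) = fun φ => ∑' i, pr S φ (f i) := by
        funext φ
        unfold pr
        have h2 : {ω | zz S φ ω ∈ ⋃ i, f i} = ⋃ i, {ω | zz S φ ω ∈ f i} := by
          ext ω
          simp
        rw [h2]
        refine measure_iUnion ?_ fun i => hpre φ (f i) (hf i)
        intro i j hij
        exact (hd hij).preimage (zz S φ)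
      rw [h1]
      exact Measurable.ennreal_tsum ih
  exact (key measurableSet_Ici).baireMeasurableSet

end NU.PkBM
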